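import Pool.Agent.TBP.StmtsA

set_option autoImplicit false

/-!
# Row MOM of squad TBP: the moment bound

`∑ t ∈ SS, tk rho (lf / gcd) ≤ C T V (2 ^ j) ^ (e - 1) τ(k) ^ 4`.
-/

namespace Pool.Agent.TBP.H94

open Finset
open Pool.Agent.TBP Pool.Agent.Common_Sieve Pool.Agent.Helper46_MNO

lemma rho_pos : 0 < rho := by
  unfold rho
  have := Real.log_pos (by norm_num : (1 : ℝ) < 2)
  positivity

/-- the size of `|W t + σ k|` -/
lemma lf_le {J k t w T x : ℕ} {σ : ℤ} (hσ : σ = 1 ∨ σ = -1) (ht : t ≤ T)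
    (h1 : WW J * T ≤ x) (hk : k ≤ w) (hw : w ≤ x) : lf J σ k t ≤ 2 * x := by
  have h2 : lf J σ k t ≤ WW J * t + k := by
    unfold lf
    rcases hσ with rfl | rfl
    · have : ((WW J : ℤ) * t + 1 * k) = ((WW J * t + k : ℕ) : ℤ) := by push_cast; ring
      rw [this, Int.natAbs_natCast]
    · calc ((WW J : ℤ) * t + -1 * k).natAbs
          ≤ ((WW J : ℤ) * t).natAbs + (-1 * (k : ℤ)).natAbs := Int.natAbs_add_le _ _
        _ = WW J * t + k := by rw [Int.natAbs_mul, Int.natAbs_mul]; simp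
  have h3 : WW J * t ≤ WW J * T := Nat.mul_le_mul_left _ ht
  generalize WW J * t = u at *
  generalize WW J * T = v at *
  omega

lemma d_le {d m w a : ℕ} (h : d ^ 4 ≤ m ^ 3) (hm : m ≤ 2 * w ^ (4 * a)) :
    d ≤ 2 * w ^ (3 * a) := by
  have h1 : m ^ 3 ≤ (2 * w ^ (4 * a)) ^ 3 := Nat.pow_le_pow_left hm 3
  have h2 : (2 * w ^ (4 * a)) ^ 3 = 8 * w ^ (12 * a) := by
    rw [mul_pow, ← pow_mul, show 4 * a * 3 = 12 * a by ring]; norm_num
  have h3 : (2 * w ^ (3 * a)) ^ 4 = 16 * w ^ (12 * a) := by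
    rw [mul_pow, ← pow_mul, show 3 * a * 4 = 12 * a by ring]; norm_num
  have h4 : d ^ 4 ≤ (2 * w ^ (3 * a)) ^ 4 := by
    rw [h2] at h1
    rw [h3]
    refine h.trans (h1.trans ?_)
    exact Nat.mul_le_mul_right _ (by norm_num)
  exact (Nat.pow_le_pow_iff_left (by norm_num)).1 h4

/-- DIV summed over `S`, the sums exchanged -/
lemma swap (hDIV : DivStmt) (hGG : ∀ m : ℕ, 0 ≤ GG m) (S P : Finset ℕ) (m : ℕ → ℕ) (N : ℕ)
    (hN : ∀ t ∈ S, ∀ d, d ^ 4 ≤ (m t) ^ 3 → d ≤ N)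
    (hP : ∀ t ∈ S, ∀ d, m t ≠ 0 → d ∣ m t → d ≤ N → d.primeFactors ⊆ P) :
    ∑ t ∈ S, tk rho (m t) ≤ 7 * ∑ d ∈ (Icc 1 N).filter (fun d => d.primeFactors ⊆ P),
      GG d * ((S.filter (fun t => d ∣ m t)).card : ℝ) := by
  have key : ∀ t ∈ S, tk rho (m t) ≤ 7 * ∑ d ∈ (Icc 1 N).filter (fun d => d.primeFactors ⊆ P),
      if d ∣ m t then GG d else 0 := by
    intro t ht
    by_cases h0 : m t = 0
    · rw [h0, tk_zero rho_pos]
      apply mul_nonneg (by norm_num)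
      apply sum_nonneg
      intro d _
      split_ifs
      · exact hGG d
      · exact le_rfl
    · refine (hDIV (m t) (Nat.one_le_iff_ne_zero.2 h0)).trans ?_
      apply mul_le_mul_of_nonneg_left _ (by norm_num)
      rw [← sum_filter]
      apply sum_le_sum_of_subset_of_nonneg
      · intro d hd
        rw [mem_filter, Nat.mem_divisors] at hd
        obtain ⟨⟨hd1, _⟩, hd2⟩ := hd
        rw [mem_filter, mem_filter, mem_Icc]
        have hdN := hN t ht d hd2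
        exact ⟨⟨⟨Nat.pos_of_dvd_of_pos hd1 (Nat.pos_of_ne_zero h0), hdN⟩,
          hP t ht d h0 hd1 hdN⟩, hd1⟩
      · intro d _ _
        exact hGG d
  refine (sum_le_sum key).trans ?_
  rw [← mul_sum, sum_comm]
  apply mul_le_mul_of_nonneg_left _ (by norm_num)
  apply sum_le_sum
  intro d _
  rw [← sum_filter, sum_const, nsmul_eq_mul, mul_comm]

/-- the count of the `t` with `d ∣ m t` -/
lemma count (c T V h D wK N : ℝ) (hc : c ≤ 2 * (T / D + 1) * (V * h) + wK) (hD : 0 < D)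
    (hDN : D ≤ N) (hNT : N ≤ T) (hV : 0 < V) (hh : 1 ≤ h) (hwK : wK * N ≤ T * V) :
    c ≤ 5 * (T * V) * (h / D) := by
  have hN : 0 < N := lt_of_lt_of_le hD hDN
  have hT : 0 < T := lt_of_lt_of_le hN hNT
  have hVh : 0 < V * h := by positivity
  have h1 : 1 ≤ T / D := by
    rw [le_div_iff₀ hD]; linarith
  have h2 : 2 * (T / D + 1) * (V * h) ≤ 4 * (T / D) * (V * h) := by
    apply mul_le_mul_of_nonneg_right _ hVh.le
    linarith
  have h3 : wK ≤ (T / D) * (V * h) := by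
    have h4 : wK ≤ T * V / N := by rw [le_div_iff₀ hN]; exact hwK
    have h5 : T * V / N ≤ T * V / D := div_le_div_of_nonneg_left (by positivity) hD hDN
    have h6 : T * V / D ≤ T * V / D * h := le_mul_of_one_le_right (by positivity) hh
    calc wK ≤ T * V / D * h := h4.trans (h5.trans h6)
      _ = (T / D) * (V * h) := by ring
  calc c ≤ 2 * (T / D + 1) * (V * h) + wK := hc
    _ ≤ 4 * (T / D) * (V * h) + (T / D) * (V * h) := add_le_add h2 h3
    _ = 5 * (T * V) * (h / D) := by ring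

theorem mom (hSVE : SveStmt) (hVDB : VdbStmt) (hSIZ : SizStmt) (hSTB : StbStmt) (hSTC : StcStmt)
    (hDIV : DivStmt) (hEPB : EpbStmt) (hGSM : GsmStmt) : MomStmt := by
  intro θ hθ0 hθ1
  obtain ⟨K, hK⟩ := hSVE θ hθ0 hθ1
  obtain ⟨a, J0, ha, hS⟩ := hSIZ θ K hθ0 hθ1
  obtain ⟨C, hC1, hC⟩ := hEPB
  have ha' : (0 : ℝ) < a := by exact_mod_cast ha
  refine ⟨a, J0, 35 * (C * (4 * (a : ℝ)) ^ (Real.exp 1 - 1)), ha, by positivity, ?_⟩
  intro J σ hJ hσ
  obtain ⟨s1, s2, s3, s4, s5, s6, s7, s8⟩ := hS J hJ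
  obtain ⟨v1, v2, v3, v4⟩ := hVDB θ J hθ0 hθ1
  obtain ⟨k1, k2⟩ := hK J (TT a J) σ hσ
  have hT0 : (0 : ℝ) < (TT a J : ℝ) := by exact_mod_cast s2
  have hTV : 0 < (TT a J : ℝ) * VV θ J := mul_pos hT0 v1
  refine ⟨s1, s6, hTV, ?_, ?_⟩
  · refine le_trans ?_ k1
    linarith
  intro k j hk1 hkw hjJ hkj
  set g := Nat.gcd (WW J) k with hg
  have hgpos : 0 < g := Nat.gcd_pos_of_pos_right _ hk1
  set N : ℕ := 2 * (lw J 0) ^ (3 * a) with hN
  have hsw := swap hDIV hGSM.1 (SS θ J σ (TT a J)) (PP J j N k)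
    (fun t => lf J σ k t / g) N (by
      intro t ht d hd
      have ht' : t ≤ TT a J := by
        unfold SS at ht
        exact (mem_Icc.1 (mem_filter.1 ht).1).2
      have h1 : lf J σ k t ≤ 2 * (lw J 0) ^ (4 * a) := lf_le hσ ht' s6 hkw s4
      exact d_le hd ((Nat.div_le_self _ _).trans h1)) (by
      intro t ht d h0 hd hdN p hp
      have hpp := Nat.prime_of_mem_primeFactors hp
      have hpd := Nat.dvd_of_mem_primeFactors hp
      have hd0 : 0 < d := Nat.pos_of_dvd_of_pos hd (Nat.pos_of_ne_zero h0)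
      unfold PP
      rw [mem_filter, mem_Icc]
      exact ⟨⟨hpp.one_lt.le, (Nat.le_of_dvd hd0 hpd).trans hdN⟩, hpp,
        hSTC θ J (TT a J) j k t p σ hθ0 hσ s1 hjJ hk1 hkj ht hpp (hpd.trans hd)⟩)
  refine hsw.trans ?_
  have hcount : ∀ d ∈ (Icc 1 N).filter (fun d => d.primeFactors ⊆ PP J j N k),
      GG d * (((SS θ J σ (TT a J)).filter (fun t => d ∣ lf J σ k t / g)).card : ℝ)
        ≤ 5 * ((TT a J : ℝ) * VV θ J) * (GG d * (∏ p ∈ d.primeFactors, hh θ J p) / d) := by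
    intro d hd
    rw [mem_filter, mem_Icc] at hd
    obtain ⟨⟨hd1, hdN⟩, _⟩ := hd
    obtain ⟨r, hr⟩ := hSTB J k d σ hσ hk1 hd1
    have c1 : (((SS θ J σ (TT a J)).filter (fun t => d ∣ lf J σ k t / g)).card : ℝ)
        ≤ (((SS θ J σ (TT a J)).filter (fun t : ℕ => (d : ℤ) ∣ (t : ℤ) - r)).card : ℝ) := by
      exact_mod_cast card_le_card (fun t ht => by
        rw [mem_filter] at ht ⊢
        exact ⟨ht.1, hr t ht.2⟩)
    have c2 := k2 d r hd1
    have c3 := v4 d hd1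
    have hd0 : (0 : ℝ) < d := by exact_mod_cast hd1
    have c4 : (((SS θ J σ (TT a J)).filter (fun t => d ∣ lf J σ k t / g)).card : ℝ)
        ≤ 2 * ((TT a J : ℝ) / d + 1) * (VV θ J * ∏ p ∈ d.primeFactors, hh θ J p)
          + ((lw J 0 : ℕ) : ℝ) ^ K := by
      refine c1.trans (c2.trans ?_)
      have : 0 ≤ 2 * ((TT a J : ℝ) / d + 1) := by positivity
      have := mul_le_mul_of_nonneg_left c3 this
      linarith
    have c5 : (1 : ℝ) ≤ ∏ p ∈ d.primeFactors, hh θ J p := by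
      have : ∏ _p ∈ d.primeFactors, (1 : ℝ) ≤ ∏ p ∈ d.primeFactors, hh θ J p :=
        prod_le_prod (fun _ _ => by norm_num) (fun p _ => v3 p)
      simpa using this
    have c6 := count _ (TT a J : ℝ) (VV θ J) (∏ p ∈ d.primeFactors, hh θ J p) d
      (((lw J 0 : ℕ) : ℝ) ^ K) (2 * ((lw J 0 : ℕ) : ℝ) ^ (3 * a)) c4 hd0
      (by have : (d : ℝ) ≤ ((N : ℕ) : ℝ) := by exact_mod_cast hdN
          rw [hN] at this; push_cast at this; exact this)
      (by have : ((2 * (lw J 0) ^ (3 * a) : ℕ) : ℝ) ≤ (TT a J : ℝ) := by exact_mod_cast s3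
          push_cast at this; exact this) v1 c5 s7
    calc GG d * (((SS θ J σ (TT a J)).filter (fun t => d ∣ lf J σ k t / g)).card : ℝ)
        ≤ GG d * (5 * ((TT a J : ℝ) * VV θ J) * ((∏ p ∈ d.primeFactors, hh θ J p) / d)) :=
          mul_le_mul_of_nonneg_left c6 (hGSM.1 d)
      _ = _ := by ring
  have hN4 : N ≤ (lw J 0) ^ (4 * a) := s5
  have hE := hC θ a J j N k hθ0 hθ1 ha s1 hjJ hN4 hk1
  have hpow : (4 * (a : ℝ) * 2 ^ j) ^ (Real.exp 1 - 1)
      = (4 * (a : ℝ)) ^ (Real.exp 1 - 1) * ((2 : ℝ) ^ j) ^ (Real.exp 1 - 1) :=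
    Real.mul_rpow (by positivity) (by positivity)
  rw [hpow] at hE
  have h35 : (0 : ℝ) ≤ 35 * ((TT a J : ℝ) * VV θ J) := by positivity
  calc 7 * ∑ d ∈ (Icc 1 N).filter (fun d => d.primeFactors ⊆ PP J j N k),
        GG d * (((SS θ J σ (TT a J)).filter (fun t => d ∣ lf J σ k t / g)).card : ℝ)
      ≤ 7 * ∑ d ∈ (Icc 1 N).filter (fun d => d.primeFactors ⊆ PP J j N k),
        5 * ((TT a J : ℝ) * VV θ J) * (GG d * (∏ p ∈ d.primeFactors, hh θ J p) / d) :=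
        mul_le_mul_of_nonneg_left (sum_le_sum hcount) (by norm_num)
    _ = 35 * ((TT a J : ℝ) * VV θ J) *
        ∑ d ∈ (Icc 1 N).filter (fun d => d.primeFactors ⊆ PP J j N k),
          GG d * (∏ p ∈ d.primeFactors, hh θ J p) / d := by
        rw [← mul_sum]; ring
    _ ≤ 35 * ((TT a J : ℝ) * VV θ J) * (C * ((4 * (a : ℝ)) ^ (Real.exp 1 - 1)
        * ((2 : ℝ) ^ j) ^ (Real.exp 1 - 1)) * (k.divisors.card : ℝ) ^ 4) :=
        mul_le_mul_of_nonneg_left hE h35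
    _ = _ := by ring

end Pool.Agent.TBP.H94
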